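import Mathlib
import Pool.Agent.H30.LinL
import Pool.Agent.H30.LinB

set_option autoImplicit false

namespace Pool.Agent.Results.MP_7f09f8_gt.Linear

open Set Filter Topology

universe u v

/-- The topology of pointwise convergence on the continuous real functions. -/
def ptw (X : Type u) [TopologicalSpace X] : TopologicalSpace C(X, ℝ) :=
  TopologicalSpace.induced (fun (f : C(X, ℝ)) (x : X) => f x) Pi.topologicalSpace

theorem result (X : Type u) (Y : Type v) [TopologicalSpace X] [TopologicalSpace Y] [T35Space X]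
    [T35Space Y] [LindelofSpace X] (φ : C(Y, ℝ) →ₗ[ℝ] C(X, ℝ))
    (hφ : @IsEmbedding _ _ (ptw Y) (ptw X) φ) : LindelofSpace Y :=
  H30.LinL.main φ φ.map_zero
    (H30.LinL.suppP φ (@IsEmbedding.continuous _ _ _ (ptw Y) (ptw X) hφ))
    (H30.LinL.suppQ φ (@IsEmbedding.isInducing _ _ _ (ptw Y) (ptw X) hφ))

end Pool.Agent.Results.MP_7f09f8_gt.Linear
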